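import Pool.Agent.helper47.VQE.HLC

/-!
# Project VQ, row HAG: Hausdorff measure of the matrices and Haar measure
-/

set_option autoImplicit false

open scoped MatrixGroups ContDiff Topology UpperHalfPlane
open UpperHalfPlane MeasureTheory Filter Set

namespace Pool.Agent.VQE

open Pool.Agent.RS

noncomputable section

theorem HAG_cd {p : Fin 3 → ℝ} (h : 0 < p 1) : ContDiffAt ℝ 1 HLC_j p := by
  have h0 : ∀ i : Fin 3, ContDiffAt ℝ 1 (fun p : Fin 3 → ℝ => p i) p := fun i => (contDiff_apply ℝ ℝ i).contDiffAt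
  have hs : ContDiffAt ℝ 1 (fun p : Fin 3 → ℝ => √(p 1)) p := (h0 1).sqrt h.ne'
  have hs0 : √(p 1) ≠ 0 := (Real.sqrt_pos.2 h).ne'
  have hc : ContDiffAt ℝ 1 (fun p : Fin 3 → ℝ => Real.cos (p 2)) p := (h0 2).cos
  have hsi : ContDiffAt ℝ 1 (fun p : Fin 3 → ℝ => Real.sin (p 2)) p := (h0 2).sin
  have hx : ContDiffAt ℝ 1 (fun p : Fin 3 → ℝ => p 0 / √(p 1)) p := (h0 0).div hs hs0
  have h1 : ContDiffAt ℝ 1 (fun p : Fin 3 → ℝ => 1 / √(p 1)) p := contDiffAt_const.div hs hs0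
  refine contDiffAt_pi.2 fun i => contDiffAt_pi.2 fun k => ?_
  fin_cases i <;> fin_cases k
  · exact (hs.mul hc).sub (hx.mul hsi)
  · exact (hs.mul hsi).add (hx.mul hc)
  · exact (h1.mul hsi).neg
  · exact h1.mul hc

theorem HAG_lip {Y : ℝ} (hY : 1 ≤ Y) : ∃ M : NNReal, LipschitzOnWith M HLC_j {p | HLC_B Y p} := by
  have hY0 : 0 < Y := by linarith
  have hK : IsCompact (Icc (![-Y, 1 / Y, 0] : Fin 3 → ℝ) ![Y, Y, 2 * Real.pi]) := isCompact_Icc
  have hL : LocallyLipschitzOn (Icc (![-Y, 1 / Y, 0] : Fin 3 → ℝ) ![Y, Y, 2 * Real.pi]) HLC_j := by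
    intro p hp
    have h1 : 1 / Y ≤ p 1 := hp.1 1
    obtain ⟨M, t, ht, hM⟩ := (HAG_cd (lt_of_lt_of_le (by positivity) h1)).exists_lipschitzOnWith
    exact ⟨M, t, mem_nhdsWithin_of_mem_nhds ht, hM⟩
  obtain ⟨M, hM⟩ := hL.exists_lipschitzOnWith_of_compact hK
  refine ⟨M, hM.mono fun p hp => ⟨fun i => ?_, fun i => ?_⟩⟩
  · obtain ⟨b1, b2, b3, b4, b5⟩ := hp
    fin_cases i
    · exact (abs_le.1 b1).1
    · exact b2
    · exact b4.le
  · obtain ⟨b1, b2, b3, b4, b5⟩ := hp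
    fin_cases i
    · exact (abs_le.1 b1).2
    · exact b3
    · exact b5

theorem HAG_rep (g : SL(2, ℝ)) : ∃ θ : ℝ, 0 < θ ∧ θ ≤ 2 * Real.pi ∧ toSL2R (g • I) * kM θ = g := by
  obtain ⟨-, -, -, -, -, -, -, -, -, -, -, -, -, hadd, hper, hI, hst, -⟩ := GLC
  have h1 : ((toSL2R (g • I))⁻¹ * g) • (I : ℍ) = I := by
    have h2 : (toSL2R (g • I))⁻¹ • (g • I : ℍ) = I := by
      rw [inv_smul_eq_iff, toSL2R_smul_I]
    rw [mul_smul]
    exact h2
  obtain ⟨θ, hθ⟩ := hst _ h1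
  have hpi : (0 : ℝ) < 2 * Real.pi := by positivity
  have hperz : ∀ (n : ℤ) (θ : ℝ), kM (θ + n * (2 * Real.pi)) = kM θ := by
    have hn : ∀ (n : ℕ) (θ : ℝ), kM (θ + n * (2 * Real.pi)) = kM θ := by
      intro n
      induction n with
      | zero => intro θ; simp
      | succ n ih =>
        intro θ
        have : θ + ((n + 1 : ℕ) : ℝ) * (2 * Real.pi) = (θ + n * (2 * Real.pi)) + 2 * Real.pi := by push_cast; ring
        rw [this, hper, ih]
    intro n θ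
    rcases Int.eq_nat_or_neg n with ⟨k, rfl | rfl⟩
    · exact_mod_cast hn k θ
    · have h5 := hn k (θ + ((-(k : ℤ) : ℤ) : ℝ) * (2 * Real.pi))
      rw [← h5]
      congr 1
      push_cast
      ring
  refine ⟨toIocMod hpi 0 θ, ?_, ?_, ?_⟩
  · exact (toIocMod_mem_Ioc hpi 0 θ).1
  · have := (toIocMod_mem_Ioc hpi 0 θ).2
    linarith
  · have h3 : kM (toIocMod hpi 0 θ) = kM θ := by
      have h4 : toIocMod hpi 0 θ = θ + ((-(toIocDiv hpi 0 θ) : ℤ) : ℝ) * (2 * Real.pi) := by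
        rw [toIocMod, zsmul_eq_mul]
        push_cast
        ring
      rw [h4, hperz]
    rw [h3, ← hθ]
    group

theorem HAG_proof : HAG_stmt := by
  intro K hK
  obtain ⟨Y, hY, hb⟩ := HLC_box hK
  obtain ⟨M, hM⟩ := HAG_lip hY
  refine ⟨M ^ 3 * (Real.toNNReal (2 * Real.pi) * Real.toNNReal (Y ^ 2)), fun A hA hAK => ?_⟩
  have h1 : mt '' A ⊆ HLC_j '' (HLC_T Y A) := by
    rintro _ ⟨g, hg, rfl⟩
    obtain ⟨θ, h0, h2, h3⟩ := HAG_rep g
    obtain ⟨b1, b2, b3⟩ := hb g (hAK hg)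
    have h4 : HLC_j (HLC_Psi (g • I, θ)) = mt g := by rw [← HLC_mt, h3]
    refine ⟨HLC_Psi (g • I, θ), ⟨⟨b1, b2, b3, h0, h2⟩, ?_⟩, h4⟩
    rw [h4]
    exact mem_image_of_mem _ hg
  have h5 : Measure.hausdorffMeasure 3 (HLC_j '' (HLC_T Y A)) ≤ (M : ENNReal) ^ (3 : ℝ) * Measure.hausdorffMeasure 3 (HLC_T Y A) :=
    (hM.mono fun p hp => hp.1).hausdorffMeasure_image_le (by norm_num)
  have h6 : (Measure.hausdorffMeasure 3 : Measure (Fin 3 → ℝ)) = volume := by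
    have := hausdorffMeasure_pi_real (ι := Fin 3)
    rw [Fintype.card_fin] at this
    exact_mod_cast this
  rw [h6] at h5
  have h7 := HLC_low hY hA
  have h8 : (M : ENNReal) ^ (3 : ℝ) = ((M ^ 3 : NNReal) : ENNReal) := by
    rw [show (3 : ℝ) = ((3 : ℕ) : ℝ) by norm_num, ENNReal.rpow_natCast]
    push_cast
    rfl
  rw [h8] at h5
  calc Measure.hausdorffMeasure 3 (mt '' A) ≤ Measure.hausdorffMeasure 3 (HLC_j '' (HLC_T Y A)) := measure_mono h1
    _ ≤ ((M ^ 3 : NNReal) : ENNReal) * volume (HLC_T Y A) := h5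
    _ ≤ ((M ^ 3 : NNReal) : ENNReal) * (ENNReal.ofReal (2 * Real.pi) * ENNReal.ofReal (Y ^ 2) * mG A) :=
        mul_le_mul_right h7 _
    _ = _ := by
        rw [ENNReal.coe_mul, ENNReal.coe_mul]
        unfold ENNReal.ofReal
        ring

end

end Pool.Agent.VQE
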