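import Pool.Agent.helper47.VQE.HLC

/-!
# Project VQ, row HAL: Haar measure is bounded by the Hausdorff measure of the matrices
-/

set_option autoImplicit false

open scoped MatrixGroups ContDiff Topology UpperHalfPlane
open UpperHalfPlane MeasureTheory Filter Set

namespace Pool.Agent.VQE

open Pool.Agent.RS

noncomputable section

/-- sets on which a map is antilipschitz -/
theorem HAL_anti {α β : Type} [MetricSpace α] [MeasurableSpace α] [BorelSpace α] [MetricSpace β] [MeasurableSpace β]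
    [BorelSpace β] [Nonempty α] (f : α → β) (s : Set α) (C : NNReal) (h : ∀ x ∈ s, ∀ y ∈ s, dist x y ≤ C * dist (f x) (f y)) :
    Measure.hausdorffMeasure 3 s ≤ ((C ^ 3 : NNReal) : ENNReal) * Measure.hausdorffMeasure 3 (f '' s) := by
  have hinj : InjOn f s := by
    intro x hx y hy he
    have := h x hx y hy
    rw [he, dist_self, mul_zero] at this
    exact dist_le_zero.1 this
  have hL : LipschitzOnWith C (Function.invFunOn f s) (f '' s) := by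
    refine LipschitzOnWith.of_dist_le_mul ?_
    rintro _ ⟨x, hx, rfl⟩ _ ⟨y, hy, rfl⟩
    rw [hinj.leftInvOn_invFunOn hx, hinj.leftInvOn_invFunOn hy]
    exact h x hx y hy
  have h1 := hL.hausdorffMeasure_image_le (d := 3) (by norm_num)
  have h2 : Function.invFunOn f s '' (f '' s) = s := hinj.leftInvOn_invFunOn.image_image
  rw [h2] at h1
  have h8 : (C : ENNReal) ^ (3 : ℝ) = ((C ^ 3 : NNReal) : ENNReal) := by
    rw [show (3 : ℝ) = ((3 : ℕ) : ℝ) by norm_num, ENNReal.rpow_natCast]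
    push_cast
    rfl
  rwa [h8] at h1

theorem HAL_ent (P Q : Fin 2 → Fin 2 → ℝ) (i k : Fin 2) : |P i k - Q i k| ≤ dist P Q := by
  rw [← Real.dist_eq]
  exact (dist_le_pi_dist (P i) (Q i) k).trans (dist_le_pi_dist P Q i)

/-- the entries -/
theorem HAL_vals (p : Fin 3 → ℝ) : HLC_j p 0 0 = √(p 1) * Real.cos (p 2) - p 0 / √(p 1) * Real.sin (p 2) ∧
    HLC_j p 0 1 = √(p 1) * Real.sin (p 2) + p 0 / √(p 1) * Real.cos (p 2) ∧
    HLC_j p 1 0 = -(1 / √(p 1) * Real.sin (p 2)) ∧ HLC_j p 1 1 = 1 / √(p 1) * Real.cos (p 2) := ⟨rfl, rfl, rfl, rfl⟩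

theorem HAL_id {p : Fin 3 → ℝ} (h : 0 < p 1) :
    (HLC_j p 1 0) ^ 2 + (HLC_j p 1 1) ^ 2 = 1 / p 1 ∧
    HLC_j p 0 0 * HLC_j p 1 0 + HLC_j p 0 1 * HLC_j p 1 1 = p 0 / p 1 ∧
    (HLC_j p 0 0) ^ 2 + (HLC_j p 0 1) ^ 2 = p 1 + p 0 ^ 2 / p 1 ∧
    Real.sin (p 2) = -(√(p 1) * HLC_j p 1 0) ∧ Real.cos (p 2) = √(p 1) * HLC_j p 1 1 := by
  obtain ⟨e1, e2, e3, e4⟩ := HAL_vals p
  have hs : 0 < √(p 1) := Real.sqrt_pos.2 h
  have hs2 : √(p 1) ^ 2 = p 1 := Real.sq_sqrt h.le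
  have ht := Real.sin_sq_add_cos_sq (p 2)
  rw [e1, e2, e3, e4]
  set s := √(p 1) with hsdef
  set S := Real.sin (p 2)
  set C := Real.cos (p 2)
  rw [← hs2]
  have hne : s ≠ 0 := hs.ne'
  refine ⟨?_, ?_, ?_, ?_, ?_⟩
  · field_simp
    linarith
  · field_simp
    linear_combination (p 0) * ht
  · field_simp
    linear_combination (s ^ 4 + p 0 ^ 2) * ht
  · field_simp
  · field_simp

theorem HAL_bd {Y : ℝ} (hY : 1 ≤ Y) {p : Fin 3 → ℝ} (hp : HLC_B Y p) (i k : Fin 2) : |HLC_j p i k| ≤ 2 * Y ^ 2 := by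
  have hY0 : 0 < Y := by linarith
  obtain ⟨b1, b2, b3, -, -⟩ := hp
  have h0 : 0 < p 1 := lt_of_lt_of_le (by positivity) b2
  have hinv : 1 / p 1 ≤ Y := by
    rw [div_le_iff₀ h0]
    rw [div_le_iff₀ hY0] at b2
    linarith
  obtain ⟨i1, -, i3, -, -⟩ := HAL_id h0
  have hx : p 0 ^ 2 ≤ Y ^ 2 := sq_le_sq' (by linarith [(abs_le.1 b1).1]) (abs_le.1 b1).2
  have h3 : p 0 ^ 2 / p 1 ≤ Y ^ 3 := by
    rw [div_eq_mul_one_div]
    calc p 0 ^ 2 * (1 / p 1) ≤ Y ^ 2 * Y := mul_le_mul hx hinv (by positivity) (by positivity)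
      _ = Y ^ 3 := by ring
  have hY2 : 1 ≤ Y ^ 2 := one_le_pow₀ hY
  have hY3 : Y ≤ Y ^ 4 := by nlinarith [sq_nonneg Y, mul_pos hY0 hY0]
  have hY4 : Y ^ 3 ≤ Y ^ 4 := by nlinarith [pow_pos hY0 3]
  have hsq : ∀ i k : Fin 2, (HLC_j p i k) ^ 2 ≤ (2 * Y ^ 2) ^ 2 := by
    intro i k
    have e1 : (2 * Y ^ 2) ^ 2 = 4 * Y ^ 4 := by ring
    rw [e1]
    fin_cases i <;> fin_cases k
    · show (HLC_j p 0 0) ^ 2 ≤ _
      nlinarith [sq_nonneg (HLC_j p 0 1)]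
    · show (HLC_j p 0 1) ^ 2 ≤ _
      nlinarith [sq_nonneg (HLC_j p 0 0)]
    · show (HLC_j p 1 0) ^ 2 ≤ _
      nlinarith [sq_nonneg (HLC_j p 1 1)]
    · show (HLC_j p 1 1) ^ 2 ≤ _
      nlinarith [sq_nonneg (HLC_j p 1 0)]
  exact abs_le_of_sq_le_sq (hsq i k) (by positivity)

theorem HAL_prod {a b a' b' B D : ℝ} (ha : |a| ≤ B) (hb' : |b'| ≤ B) (h1 : |a - a'| ≤ D) (h2 : |b - b'| ≤ D) :
    |a * b - a' * b'| ≤ 2 * B * D := by
  have e : a * b - a' * b' = a * (b - b') + (a - a') * b' := by ring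
  rw [e]
  have hB : 0 ≤ B := (abs_nonneg _).trans ha
  have hD : 0 ≤ D := (abs_nonneg _).trans h1
  calc |a * (b - b') + (a - a') * b'| ≤ |a * (b - b')| + |(a - a') * b'| := abs_add_le _ _
    _ = |a| * |b - b'| + |a - a'| * |b'| := by rw [abs_mul, abs_mul]
    _ ≤ B * D + D * B := add_le_add (mul_le_mul ha h2 (abs_nonneg _) hB) (mul_le_mul h1 hb' (abs_nonneg _) hD)
    _ = _ := by ring

theorem HAL_sin {t : ℝ} (h : |t| ≤ 1) : |t| ≤ 2 * |Real.sin t| := by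
  have hpi := Real.pi_gt_three
  have hpi4 := Real.pi_le_four
  have key : ∀ u : ℝ, 0 ≤ u → u ≤ 1 → u ≤ 2 * Real.sin u := by
    intro u h0 h1
    have h2 := Real.mul_le_sin h0 (by linarith)
    have h3 : 1 / 2 * u ≤ 2 / Real.pi * u := by
      refine mul_le_mul_of_nonneg_right ?_ h0
      rw [div_le_div_iff₀ (by norm_num) (by linarith)]
      linarith
    linarith
  rcases le_total 0 t with h0 | h0
  · rw [abs_of_nonneg h0] at h ⊢
    exact (key t h0 h).trans (mul_le_mul_of_nonneg_left (le_abs_self _) (by norm_num))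
  · rw [abs_of_nonpos h0] at h ⊢
    have := key (-t) (by linarith) h
    rw [Real.sin_neg] at this
    exact this.trans (mul_le_mul_of_nonneg_left (neg_le_abs _) (by norm_num))

theorem HAL_lip {Y : ℝ} (hY : 1 ≤ Y) {p q : Fin 3 → ℝ} (hp : HLC_B Y p) (hq : HLC_B Y q) (h : |p 2 - q 2| ≤ 1) :
    dist p q ≤ (12 * (2 * Y ^ 2) ^ 5) * dist (HLC_j p) (HLC_j q) := by
  have hY0 : 0 < Y := by linarith
  set D := dist (HLC_j p) (HLC_j q) with hD
  set B := 2 * Y ^ 2 with hB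
  have hD0 : 0 ≤ D := dist_nonneg
  have hYB : Y ≤ B := by rw [hB]; nlinarith
  have hB2 : 2 ≤ B := by rw [hB]; nlinarith
  have hE : ∀ i k, |HLC_j p i k - HLC_j q i k| ≤ D := fun i k => HAL_ent _ _ i k
  have hbp : ∀ i k, |HLC_j p i k| ≤ B := HAL_bd hY hp
  have hbq : ∀ i k, |HLC_j q i k| ≤ B := HAL_bd hY hq
  have p0 : 0 < p 1 := lt_of_lt_of_le (by positivity) hp.2.1
  have q0 : 0 < q 1 := lt_of_lt_of_le (by positivity) hq.2.1
  obtain ⟨p1, p2, -, p4, p5⟩ := HAL_id p0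
  obtain ⟨q1, q2, -, q4, q5⟩ := HAL_id q0
  have hpY : p 1 ≤ Y := hp.2.2.1
  have hqY : q 1 ≤ Y := hq.2.2.1
  -- second coordinate
  have k1 : |1 / p 1 - 1 / q 1| ≤ 4 * B * D := by
    rw [← p1, ← q1]
    have u1 := HAL_prod (hbp 1 0) (hbq 1 0) (hE 1 0) (hE 1 0)
    have u2 := HAL_prod (hbp 1 1) (hbq 1 1) (hE 1 1) (hE 1 1)
    have e : HLC_j p 1 0 ^ 2 + HLC_j p 1 1 ^ 2 - (HLC_j q 1 0 ^ 2 + HLC_j q 1 1 ^ 2) =
      (HLC_j p 1 0 * HLC_j p 1 0 - HLC_j q 1 0 * HLC_j q 1 0) + (HLC_j p 1 1 * HLC_j p 1 1 - HLC_j q 1 1 * HLC_j q 1 1) := by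
      ring
    rw [e]
    have := abs_add_le (HLC_j p 1 0 * HLC_j p 1 0 - HLC_j q 1 0 * HLC_j q 1 0)
      (HLC_j p 1 1 * HLC_j p 1 1 - HLC_j q 1 1 * HLC_j q 1 1)
    linarith
  have k2 : |p 1 - q 1| ≤ 4 * B ^ 3 * D := by
    have e : p 1 - q 1 = -(p 1 * q 1 * (1 / p 1 - 1 / q 1)) := by
      field_simp
      ring
    rw [e, abs_neg, abs_mul, abs_of_pos (mul_pos p0 q0)]
    have h3 : p 1 * q 1 ≤ B * B := mul_le_mul (hpY.trans hYB) (hqY.trans hYB) q0.le (by linarith)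
    calc p 1 * q 1 * |1 / p 1 - 1 / q 1| ≤ B * B * (4 * B * D) := mul_le_mul h3 k1 (abs_nonneg _) (by positivity)
      _ = _ := by ring
  -- first coordinate
  have k3 : |p 0 / p 1 - q 0 / q 1| ≤ 4 * B * D := by
    rw [← p2, ← q2]
    have u1 := HAL_prod (hbp 0 0) (hbq 1 0) (hE 0 0) (hE 1 0)
    have u2 := HAL_prod (hbp 0 1) (hbq 1 1) (hE 0 1) (hE 1 1)
    have e : HLC_j p 0 0 * HLC_j p 1 0 + HLC_j p 0 1 * HLC_j p 1 1 - (HLC_j q 0 0 * HLC_j q 1 0 + HLC_j q 0 1 * HLC_j q 1 1) =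
      (HLC_j p 0 0 * HLC_j p 1 0 - HLC_j q 0 0 * HLC_j q 1 0) + (HLC_j p 0 1 * HLC_j p 1 1 - HLC_j q 0 1 * HLC_j q 1 1) := by
      ring
    rw [e]
    have := abs_add_le (HLC_j p 0 0 * HLC_j p 1 0 - HLC_j q 0 0 * HLC_j q 1 0)
      (HLC_j p 0 1 * HLC_j p 1 1 - HLC_j q 0 1 * HLC_j q 1 1)
    linarith
  have k4 : |p 0 / p 1| ≤ 2 * B ^ 2 := by
    rw [← p2]
    have u1 : |HLC_j p 0 0 * HLC_j p 1 0| ≤ B * B := by
      rw [abs_mul]
      exact mul_le_mul (hbp 0 0) (hbp 1 0) (abs_nonneg _) (by linarith)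
    have u2 : |HLC_j p 0 1 * HLC_j p 1 1| ≤ B * B := by
      rw [abs_mul]
      exact mul_le_mul (hbp 0 1) (hbp 1 1) (abs_nonneg _) (by linarith)
    have := abs_add_le (HLC_j p 0 0 * HLC_j p 1 0) (HLC_j p 0 1 * HLC_j p 1 1)
    nlinarith
  have k5 : |p 0 - q 0| ≤ 12 * B ^ 5 * D := by
    have e : p 0 - q 0 = (p 1 - q 1) * (p 0 / p 1) + q 1 * (p 0 / p 1 - q 0 / q 1) := by
      field_simp
      ring
    rw [e]
    have h3 : |(p 1 - q 1) * (p 0 / p 1)| ≤ 4 * B ^ 3 * D * (2 * B ^ 2) := by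
      rw [abs_mul]
      exact mul_le_mul k2 k4 (abs_nonneg _) (by positivity)
    have h4 : |q 1 * (p 0 / p 1 - q 0 / q 1)| ≤ B * (4 * B * D) := by
      rw [abs_mul, abs_of_pos q0]
      exact mul_le_mul (hqY.trans hYB) k3 (abs_nonneg _) (by linarith)
    have h5 := abs_add_le ((p 1 - q 1) * (p 0 / p 1)) (q 1 * (p 0 / p 1 - q 0 / q 1))
    have h6 : B ^ 2 ≤ B ^ 5 := pow_le_pow_right₀ (by linarith) (by norm_num)
    have h7 : B ^ 2 * D ≤ B ^ 5 * D := mul_le_mul_of_nonneg_right h6 hD0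
    have e3 : 4 * B ^ 3 * D * (2 * B ^ 2) = 8 * (B ^ 5 * D) := by ring
    have e4 : B * (4 * B * D) = 4 * (B ^ 2 * D) := by ring
    have e5 : 12 * B ^ 5 * D = 12 * (B ^ 5 * D) := by ring
    rw [e5]
    rw [e3] at h3
    rw [e4] at h4
    linarith
  -- the angle
  have k6 : |p 2 - q 2| ≤ 4 * B ^ 2 * D := by
    have e : Real.sin (p 2 - q 2) = √(p 1) * √(q 1) * (HLC_j p 1 1 * HLC_j q 1 0 - HLC_j q 1 1 * HLC_j p 1 0) := by
      rw [Real.sin_sub, p4, p5, q4, q5]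
      ring
    have u1 := HAL_prod (hbp 1 1) (hbp 1 0) (hE 1 1) (show |HLC_j q 1 0 - HLC_j p 1 0| ≤ D by rw [abs_sub_comm]; exact hE 1 0)
    have u2 : √(p 1) * √(q 1) ≤ B := by
      have h3 : √(p 1) ≤ √Y := Real.sqrt_le_sqrt hpY
      have h4 : √(q 1) ≤ √Y := Real.sqrt_le_sqrt hqY
      calc √(p 1) * √(q 1) ≤ √Y * √Y := mul_le_mul h3 h4 (Real.sqrt_nonneg _) (Real.sqrt_nonneg _)
        _ = Y := Real.mul_self_sqrt hY0.le
        _ ≤ B := hYB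
    have u3 : |Real.sin (p 2 - q 2)| ≤ B * (2 * B * D) := by
      rw [e, abs_mul, abs_of_nonneg (by positivity : (0 : ℝ) ≤ √(p 1) * √(q 1))]
      exact mul_le_mul u2 u1 (abs_nonneg _) (by linarith)
    have u4 := HAL_sin h
    have e6 : 4 * B ^ 2 * D = 2 * (B * (2 * B * D)) := by ring
    rw [e6]
    linarith
  have hB5 : 4 * B ^ 3 ≤ 12 * B ^ 5 := by
    have : B ^ 3 ≤ B ^ 5 := pow_le_pow_right₀ (by linarith) (by norm_num)
    have h3 : 0 < B ^ 3 := by positivity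
    linarith
  have hB5' : 4 * B ^ 2 ≤ 12 * B ^ 5 := by
    have : B ^ 2 ≤ B ^ 5 := pow_le_pow_right₀ (by linarith) (by norm_num)
    have h3 : 0 < B ^ 2 := by positivity
    linarith
  refine (dist_pi_le_iff (by positivity)).2 fun i => ?_
  rw [Real.dist_eq]
  fin_cases i
  · exact k5
  · exact k2.trans (mul_le_mul_of_nonneg_right hB5 hD0)
  · exact k6.trans (mul_le_mul_of_nonneg_right hB5' hD0)

theorem HAL_proof : HAL_stmt := by
  intro K hK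
  obtain ⟨Y, hY, hb⟩ := HLC_box hK
  set C : NNReal := Real.toNNReal (12 * (2 * Y ^ 2) ^ 5) with hC
  have hCr : (C : ℝ) = 12 * (2 * Y ^ 2) ^ 5 := Real.coe_toNNReal _ (by positivity)
  refine ⟨Real.toNNReal (Y ^ 2) * (7 * C ^ 3), fun A hA hAK => ?_⟩
  have h1 := HLC_up hY hA fun g hg => hb g (hAK hg)
  have h6 : (Measure.hausdorffMeasure 3 : Measure (Fin 3 → ℝ)) = volume := by
    have := hausdorffMeasure_pi_real (ι := Fin 3)
    rw [Fintype.card_fin] at this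
    exact_mod_cast this
  have h2 : ∀ k : Fin 7, volume (HLC_T Y A ∩ {p | (k : ℝ) < p 2 ∧ p 2 ≤ k + 1}) ≤
      ((C ^ 3 : NNReal) : ENNReal) * Measure.hausdorffMeasure 3 (mt '' A) := by
    intro k
    rw [← h6]
    refine (HAL_anti HLC_j _ C ?_).trans ?_
    · intro x hx y hy
      rw [hCr]
      refine HAL_lip hY hx.1.1 hy.1.1 ?_
      rw [abs_le]
      constructor <;> linarith [hx.2.1, hx.2.2, hy.2.1, hy.2.2]
    · refine mul_le_mul_right (measure_mono ?_) _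
      rintro _ ⟨p, hp, rfl⟩
      exact hp.1.2
  have h3 : HLC_T Y A ⊆ ⋃ k : Fin 7, (HLC_T Y A ∩ {p | (k : ℝ) < p 2 ∧ p 2 ≤ k + 1}) := by
    intro p hp
    have h4 : 0 < p 2 := hp.1.2.2.2.1
    have h5 : p 2 ≤ 7 := by
      have h8 : p 2 ≤ 2 * Real.pi := hp.1.2.2.2.2
      have h7 := Real.pi_lt_d2
      linarith
    have h7 : 1 ≤ ⌈p 2⌉₊ := Nat.ceil_pos.2 h4
    have h8 : ⌈p 2⌉₊ ≤ 7 := Nat.ceil_le.2 (by exact_mod_cast h5)
    refine mem_iUnion.2 ⟨⟨⌈p 2⌉₊ - 1, by omega⟩, hp, ?_, ?_⟩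
    · have h9 := Nat.ceil_lt_add_one h4.le
      show ((⌈p 2⌉₊ - 1 : ℕ) : ℝ) < p 2
      rw [Nat.cast_sub h7]
      push_cast
      linarith
    · have h9 := Nat.le_ceil (p 2)
      show p 2 ≤ ((⌈p 2⌉₊ - 1 : ℕ) : ℝ) + 1
      rw [Nat.cast_sub h7]
      push_cast
      linarith
  have h4 : volume (HLC_T Y A) ≤ 7 * (((C ^ 3 : NNReal) : ENNReal) * Measure.hausdorffMeasure 3 (mt '' A)) := by
    calc volume (HLC_T Y A) ≤ volume (⋃ k : Fin 7, (HLC_T Y A ∩ {p | (k : ℝ) < p 2 ∧ p 2 ≤ k + 1})) := measure_mono h3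
      _ ≤ ∑ k : Fin 7, volume (HLC_T Y A ∩ {p | (k : ℝ) < p 2 ∧ p 2 ≤ k + 1}) := measure_iUnion_fintype_le _ _
      _ ≤ ∑ k : Fin 7, (((C ^ 3 : NNReal) : ENNReal) * Measure.hausdorffMeasure 3 (mt '' A)) :=
          Finset.sum_le_sum fun k _ => h2 k
      _ = _ := by
          rw [Finset.sum_const, Finset.card_univ, Fintype.card_fin, nsmul_eq_mul]
          norm_num
  calc mG A ≤ ENNReal.ofReal (Y ^ 2) * volume (HLC_T Y A) := h1
    _ ≤ ENNReal.ofReal (Y ^ 2) * (7 * (((C ^ 3 : NNReal) : ENNReal) * Measure.hausdorffMeasure 3 (mt '' A))) :=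
        mul_le_mul_right h4 _
    _ = _ := by
        rw [ENNReal.coe_mul, ENNReal.coe_mul]
        unfold ENNReal.ofReal
        push_cast
        ring

end

end Pool.Agent.VQE
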