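import Pool.Agent.helper62.VQ.SpecF

/-!
# Project VQ, row PCA: calculus of the classes `CB`
-/

set_option autoImplicit false

open scoped MatrixGroups ContDiff Topology UpperHalfPlane
open UpperHalfPlane MeasureTheory Filter Set

namespace Pool.Agent.VQE

open Pool.Agent.RS

noncomputable section

section

variable {V W E : Type} [NormedAddCommGroup V] [NormedSpace ℝ V] [NormedAddCommGroup W] [NormedSpace ℝ W]
  [NormedAddCommGroup E] [NormedSpace ℝ E]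

theorem PCA_mono {s : Set V} {A A' : ℝ} {G : V → W} (h : CB s A G) (hA : A ≤ A') : CB s A' G :=
  ⟨h.diff, fun x hx => (h.b0 x hx).trans hA, fun x hx => (h.b1 x hx).trans hA,
    fun x hx y hy => (h.b2 x hx y hy).trans (mul_le_mul_of_nonneg_right hA (norm_nonneg _))⟩

theorem PCA_lip {s : Set V} {A : ℝ} {G : V → W} (hs : Convex ℝ s) (h : CB s A G) {x y : V} (hx : x ∈ s) (hy : y ∈ s) :
    ‖G x - G y‖ ≤ A * ‖x - y‖ :=
  hs.norm_image_sub_le_of_norm_fderiv_le (𝕜 := ℝ) h.diff h.b1 hy hx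

theorem PCA_add {s : Set V} {A B : ℝ} {G H : V → W} (hG : CB s A G) (hH : CB s B H) :
    CB s (A + B) (fun x => G x + H x) := by
  have hd : ∀ x ∈ s, fderiv ℝ (fun x => G x + H x) x = fderiv ℝ G x + fderiv ℝ H x :=
    fun x hx => fderiv_fun_add (hG.diff x hx) (hH.diff x hx)
  refine ⟨fun x hx => (hG.diff x hx).add (hH.diff x hx), fun x hx => ?_, fun x hx => ?_, fun x hx y hy => ?_⟩
  · exact (norm_add_le _ _).trans (add_le_add (hG.b0 x hx) (hH.b0 x hx))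
  · rw [hd x hx]
    exact (norm_add_le _ _).trans (add_le_add (hG.b1 x hx) (hH.b1 x hx))
  · rw [hd x hx, hd y hy]
    have e : fderiv ℝ G x + fderiv ℝ H x - (fderiv ℝ G y + fderiv ℝ H y) =
      (fderiv ℝ G x - fderiv ℝ G y) + (fderiv ℝ H x - fderiv ℝ H y) := by abel
    rw [e, add_mul]
    exact (norm_add_le _ _).trans (add_le_add (hG.b2 x hx y hy) (hH.b2 x hx y hy))

theorem PCA_comp {s : Set V} {t : Set E} {A C : ℝ} {Φ : E → W} {ζ : V → E} (hs : Convex ℝ s) (hA : 0 ≤ A) (hC : 1 ≤ C)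
    (hΦ : CB t A Φ) (hζ : CB s C ζ) (hm : ∀ x ∈ s, ζ x ∈ t) : CB s (2 * C ^ 2 * A) (fun x => Φ (ζ x)) := by
  have hd : ∀ x ∈ s, fderiv ℝ (fun x => Φ (ζ x)) x = (fderiv ℝ Φ (ζ x)).comp (fderiv ℝ ζ x) :=
    fun x hx => fderiv_comp x (hΦ.diff _ (hm x hx)) (hζ.diff x hx)
  have hC0 : 0 ≤ C := by linarith
  have hC2 : C ≤ C ^ 2 := by nlinarith
  have hAC : A * C ≤ A * C ^ 2 := mul_le_mul_of_nonneg_left hC2 hA
  have hAC0 : A ≤ A * C := by nlinarith
  refine ⟨fun x hx => (hΦ.diff _ (hm x hx)).comp x (hζ.diff x hx), fun x hx => ?_, fun x hx => ?_, fun x hx y hy => ?_⟩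
  · have := hΦ.b0 _ (hm x hx)
    nlinarith
  · rw [hd x hx]
    have h1 := ContinuousLinearMap.opNorm_comp_le (fderiv ℝ Φ (ζ x)) (fderiv ℝ ζ x)
    have h2 := mul_le_mul (hΦ.b1 _ (hm x hx)) (hζ.b1 x hx) (norm_nonneg _) hA
    nlinarith
  · rw [hd x hx, hd y hy]
    have e : (fderiv ℝ Φ (ζ x)).comp (fderiv ℝ ζ x) - (fderiv ℝ Φ (ζ y)).comp (fderiv ℝ ζ y) =
      (fderiv ℝ Φ (ζ x) - fderiv ℝ Φ (ζ y)).comp (fderiv ℝ ζ x) + (fderiv ℝ Φ (ζ y)).comp (fderiv ℝ ζ x - fderiv ℝ ζ y) := by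
      ext v
      simp
    rw [e]
    have h1 := ContinuousLinearMap.opNorm_comp_le (fderiv ℝ Φ (ζ x) - fderiv ℝ Φ (ζ y)) (fderiv ℝ ζ x)
    have h2 := ContinuousLinearMap.opNorm_comp_le (fderiv ℝ Φ (ζ y)) (fderiv ℝ ζ x - fderiv ℝ ζ y)
    have h3 : ‖fderiv ℝ Φ (ζ x) - fderiv ℝ Φ (ζ y)‖ ≤ A * (C * ‖x - y‖) :=
      (hΦ.b2 _ (hm x hx) _ (hm y hy)).trans (mul_le_mul_of_nonneg_left (PCA_lip hs hζ hx hy) hA)
    have h4 := mul_le_mul h3 (hζ.b1 x hx) (norm_nonneg _) (by positivity)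
    have h5 := mul_le_mul (hΦ.b1 _ (hm y hy)) (hζ.b2 x hx y hy) (norm_nonneg _) hA
    have h6 : A * (C * ‖x - y‖) * C + A * (C * ‖x - y‖) ≤ 2 * C ^ 2 * A * ‖x - y‖ := by
      have e1 : A * (C * ‖x - y‖) * C = (A * C ^ 2) * ‖x - y‖ := by ring
      have e2 : A * (C * ‖x - y‖) = (A * C) * ‖x - y‖ := by ring
      have e3 : 2 * C ^ 2 * A * ‖x - y‖ = (A * C ^ 2) * ‖x - y‖ + (A * C ^ 2) * ‖x - y‖ := by ring
      rw [e1, e2, e3]
      exact add_le_add le_rfl (mul_le_mul_of_nonneg_right hAC (norm_nonneg _))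
    exact (norm_add_le _ _).trans ((add_le_add (h1.trans h4) (h2.trans h5)).trans h6)

theorem PCA_app {s : Set V} {A B : ℝ} {c : V → (E →L[ℝ] W)} {u : V → E} (hs : Convex ℝ s) (hA : 0 ≤ A) (hB : 0 ≤ B)
    (hc : CB s A c) (hu : CB s B u) : CB s (4 * A * B) (fun x => c x (u x)) := by
  have hd : ∀ x ∈ s, fderiv ℝ (fun x => c x (u x)) x = (c x).comp (fderiv ℝ u x) + (fderiv ℝ c x).flip (u x) :=
    fun x hx => ((hc.diff x hx).hasFDerivAt.clm_apply (hu.diff x hx).hasFDerivAt).fderiv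
  have hAB : 0 ≤ A * B := mul_nonneg hA hB
  have hflip : ∀ (T : V →L[ℝ] E →L[ℝ] W) (e : E), ‖T.flip e‖ ≤ ‖T‖ * ‖e‖ := by
    intro T e
    have := T.flip.le_opNorm e
    rwa [ContinuousLinearMap.opNorm_flip] at this
  refine ⟨fun x hx => (hc.diff x hx).clm_apply (hu.diff x hx), fun x hx => ?_, fun x hx => ?_, fun x hx y hy => ?_⟩
  · have h1 := (c x).le_opNorm (u x)
    have h2 := mul_le_mul (hc.b0 x hx) (hu.b0 x hx) (norm_nonneg _) hA
    nlinarith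
  · rw [hd x hx]
    have h1 := ContinuousLinearMap.opNorm_comp_le (c x) (fderiv ℝ u x)
    have h2 := mul_le_mul (hc.b0 x hx) (hu.b1 x hx) (norm_nonneg _) hA
    have h3 := hflip (fderiv ℝ c x) (u x)
    have h4 := mul_le_mul (hc.b1 x hx) (hu.b0 x hx) (norm_nonneg _) hA
    have h5 := norm_add_le ((c x).comp (fderiv ℝ u x)) ((fderiv ℝ c x).flip (u x))
    nlinarith
  · rw [hd x hx, hd y hy]
    have e : (c x).comp (fderiv ℝ u x) + (fderiv ℝ c x).flip (u x) - ((c y).comp (fderiv ℝ u y) + (fderiv ℝ c y).flip (u y)) =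
      ((c x - c y).comp (fderiv ℝ u x) + (c y).comp (fderiv ℝ u x - fderiv ℝ u y)) +
      ((fderiv ℝ c x - fderiv ℝ c y).flip (u x) + (fderiv ℝ c y).flip (u x - u y)) := by
      ext v
      simp
      abel
    rw [e]
    have n0 : 0 ≤ ‖x - y‖ := norm_nonneg _
    have h1 : ‖(c x - c y).comp (fderiv ℝ u x)‖ ≤ A * ‖x - y‖ * B :=
      (ContinuousLinearMap.opNorm_comp_le _ _).trans (mul_le_mul (PCA_lip hs hc hx hy) (hu.b1 x hx) (norm_nonneg _) (by positivity))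
    have h2 : ‖(c y).comp (fderiv ℝ u x - fderiv ℝ u y)‖ ≤ A * (B * ‖x - y‖) :=
      (ContinuousLinearMap.opNorm_comp_le _ _).trans (mul_le_mul (hc.b0 y hy) (hu.b2 x hx y hy) (norm_nonneg _) hA)
    have h3 : ‖(fderiv ℝ c x - fderiv ℝ c y).flip (u x)‖ ≤ A * ‖x - y‖ * B :=
      (hflip _ _).trans (mul_le_mul (hc.b2 x hx y hy) (hu.b0 x hx) (norm_nonneg _) (by positivity))
    have h4 : ‖(fderiv ℝ c y).flip (u x - u y)‖ ≤ A * (B * ‖x - y‖) :=
      (hflip _ _).trans (mul_le_mul (hc.b1 y hy) (PCA_lip hs hu hx hy) (norm_nonneg _) hA)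
    have h5 : 4 * A * B * ‖x - y‖ = (A * ‖x - y‖ * B + A * (B * ‖x - y‖)) + (A * ‖x - y‖ * B + A * (B * ‖x - y‖)) := by ring
    rw [h5]
    exact (norm_add_le _ _).trans (add_le_add ((norm_add_le _ _).trans (add_le_add h1 h2))
      ((norm_add_le _ _).trans (add_le_add h3 h4)))

theorem PCA_mul {s : Set V} {A B : ℝ} {G H : V → ℝ} (hs : Convex ℝ s) (hA : 0 ≤ A) (hB : 0 ≤ B)
    (hG : CB s A G) (hH : CB s B H) : CB s (4 * A * B) (fun x => G x * H x) := by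
  have hd : ∀ x ∈ s, fderiv ℝ (fun x => G x * H x) x = G x • fderiv ℝ H x + H x • fderiv ℝ G x :=
    fun x hx => fderiv_fun_mul (hG.diff x hx) (hH.diff x hx)
  have hAB : 0 ≤ A * B := mul_nonneg hA hB
  refine ⟨fun x hx => (hG.diff x hx).mul (hH.diff x hx), fun x hx => ?_, fun x hx => ?_, fun x hx y hy => ?_⟩
  · rw [norm_mul]
    have h2 := mul_le_mul (hG.b0 x hx) (hH.b0 x hx) (norm_nonneg _) hA
    nlinarith
  · rw [hd x hx]
    have h1 : ‖G x • fderiv ℝ H x‖ ≤ A * B := by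
      rw [norm_smul]
      exact mul_le_mul (hG.b0 x hx) (hH.b1 x hx) (norm_nonneg _) hA
    have h2 : ‖H x • fderiv ℝ G x‖ ≤ B * A := by
      rw [norm_smul]
      exact mul_le_mul (hH.b0 x hx) (hG.b1 x hx) (norm_nonneg _) hB
    have h5 := norm_add_le (G x • fderiv ℝ H x) (H x • fderiv ℝ G x)
    nlinarith
  · rw [hd x hx, hd y hy]
    have e : G x • fderiv ℝ H x + H x • fderiv ℝ G x - (G y • fderiv ℝ H y + H y • fderiv ℝ G y) =
      ((G x - G y) • fderiv ℝ H x + G y • (fderiv ℝ H x - fderiv ℝ H y)) +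
      ((H x - H y) • fderiv ℝ G x + H y • (fderiv ℝ G x - fderiv ℝ G y)) := by
      simp only [sub_smul, smul_sub]
      abel
    rw [e]
    have n0 : 0 ≤ ‖x - y‖ := norm_nonneg _
    have h1 : ‖(G x - G y) • fderiv ℝ H x‖ ≤ A * ‖x - y‖ * B := by
      rw [norm_smul]
      exact mul_le_mul (PCA_lip hs hG hx hy) (hH.b1 x hx) (norm_nonneg _) (by positivity)
    have h2 : ‖G y • (fderiv ℝ H x - fderiv ℝ H y)‖ ≤ A * (B * ‖x - y‖) := by
      rw [norm_smul]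
      exact mul_le_mul (hG.b0 y hy) (hH.b2 x hx y hy) (norm_nonneg _) hA
    have h3 : ‖(H x - H y) • fderiv ℝ G x‖ ≤ B * ‖x - y‖ * A := by
      rw [norm_smul]
      exact mul_le_mul (PCA_lip hs hH hx hy) (hG.b1 x hx) (norm_nonneg _) (by positivity)
    have h4 : ‖H y • (fderiv ℝ G x - fderiv ℝ G y)‖ ≤ B * (A * ‖x - y‖) := by
      rw [norm_smul]
      exact mul_le_mul (hH.b0 y hy) (hG.b2 x hx y hy) (norm_nonneg _) hB
    have h5 : 4 * A * B * ‖x - y‖ = (A * ‖x - y‖ * B + A * (B * ‖x - y‖)) + (B * ‖x - y‖ * A + B * (A * ‖x - y‖)) := by ring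
    rw [h5]
    exact (norm_add_le _ _).trans (add_le_add ((norm_add_le _ _).trans (add_le_add h1 h2))
      ((norm_add_le _ _).trans (add_le_add h3 h4)))

end

theorem PCA_proof : PCA_stmt := by
  intro V _ _ s hs
  refine ⟨fun A B G H hA hB hG hH => ⟨PCA_add hG hH, PCA_mul hs hA hB hG hH⟩, ?_, ?_⟩
  · intro A C t Φ ζ hA hC hΦ hζ hm
    refine PCA_mono (PCA_comp hs hA hC hΦ hζ hm) ?_
    have : 0 ≤ C ^ 2 * A := by positivity
    nlinarith
  · intro A C t Φ ζ ξ hA hC hΦ hζ hξ hm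
    have h1 := PCA_comp hs hA hC hΦ hζ hm
    refine PCA_mono (PCA_app hs (by positivity) (by linarith) h1 hξ) ?_
    have : 0 ≤ C ^ 3 * A := by positivity
    nlinarith

end

end Pool.Agent.VQE
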