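import Pool.Agent.helper62.VQ.SpecE
import Pool.Agent.helper62.RS.GLC

/-!
# Project VQ, rows HAL, HAG: coordinates on `SL(2, ℝ)` and the Haar measure
-/

set_option autoImplicit false

open scoped MatrixGroups ContDiff Topology UpperHalfPlane
open UpperHalfPlane MeasureTheory Filter Set

namespace Pool.Agent.VQE

open Pool.Agent.RS

noncomputable section

/-- `(z, θ) ↦ (x, y, θ)` -/
def HLC_Psi (p : ℍ × ℝ) : Fin 3 → ℝ := ![p.1.re, p.1.im, p.2]

/-- the matrix `toSL2R (x + i y) * kM θ` -/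
def HLC_j (p : Fin 3 → ℝ) : Fin 2 → Fin 2 → ℝ :=
  ![![√(p 1) * Real.cos (p 2) - p 0 / √(p 1) * Real.sin (p 2), √(p 1) * Real.sin (p 2) + p 0 / √(p 1) * Real.cos (p 2)],
    ![-(1 / √(p 1) * Real.sin (p 2)), 1 / √(p 1) * Real.cos (p 2)]]

theorem HLC_mt (z : ℍ) (θ : ℝ) : mt (toSL2R z * kM θ) = HLC_j (HLC_Psi (z, θ)) := by
  funext i k
  have h : (toSL2R z * kM θ).1 = !![√z.im, z.re / √z.im; 0, 1 / √z.im] *
      !![Real.cos θ, Real.sin θ; -Real.sin θ, Real.cos θ] := by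
    rw [Matrix.SpecialLinearGroup.coe_mul, coe_toSL2R]
    rfl
  unfold mt
  rw [h]
  fin_cases i <;> fin_cases k <;>
    simp [HLC_j, HLC_Psi, Matrix.mul_apply, Fin.sum_univ_two] <;> ring

/-- Lebesgue measure on the half-plane -/
def HLC_lam : Measure ℍ := (volume : Measure ℂ).comap UpperHalfPlane.coe

instance : SFinite HLC_lam := by unfold HLC_lam; infer_instance

/-- the density -/
def HLC_w (z : ℍ) : ENNReal := ↑((1 / NNReal.mk z.im z.im_pos.le : NNReal) ^ 2)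

theorem HLC_wm : Measurable HLC_w := by
  unfold HLC_w
  have h : Continuous fun z : ℍ => (1 / NNReal.mk z.im z.im_pos.le : NNReal) ^ 2 := by
    refine .pow (.div₀ continuous_const ?_ ?_) _
    · exact continuous_im.subtype_mk _
    · exact fun x ↦ NNReal.ne_iff.mp x.im_ne_zero
  exact h.measurable.coe_nnreal_ennreal

theorem HLC_vol : (volume : Measure ℍ) = HLC_lam.withDensity HLC_w := rfl

/-- the measure preserving map `ℂ × ℝ → ℝ³` -/
def HLC_e (p : ℂ × ℝ) : Fin 3 → ℝ := ![p.1.re, p.1.im, p.2]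

theorem HLC_emp : MeasurePreserving HLC_e ((volume : Measure ℂ).prod (volume : Measure ℝ)) volume := by
  have h1 : MeasurePreserving (Prod.map Complex.measurableEquivPi id : ℂ × ℝ → (Fin 2 → ℝ) × ℝ)
      ((volume : Measure ℂ).prod (volume : Measure ℝ)) ((volume : Measure (Fin 2 → ℝ)).prod (volume : Measure ℝ)) :=
    Complex.volume_preserving_equiv_pi.prod (MeasurePreserving.id _)
  have h2 : MeasurePreserving (Prod.swap : (Fin 2 → ℝ) × ℝ → ℝ × (Fin 2 → ℝ))
      ((volume : Measure (Fin 2 → ℝ)).prod (volume : Measure ℝ)) ((volume : Measure ℝ).prod (volume : Measure (Fin 2 → ℝ))) :=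
    Measure.measurePreserving_swap
  have h3 := (volume_preserving_piFinSuccAbove (fun _ : Fin 3 => ℝ) (Fin.last 2)).symm _
  have h4 := h3.comp (h2.comp h1)
  have h5 : (⇑(MeasurableEquiv.piFinSuccAbove (fun _ : Fin 3 => ℝ) (Fin.last 2)).symm ∘
      (Prod.swap ∘ (Prod.map Complex.measurableEquivPi id : ℂ × ℝ → (Fin 2 → ℝ) × ℝ))) = HLC_e := by
    funext p
    funext i
    fin_cases i <;>
      simp [HLC_e, MeasurableEquiv.piFinSuccAbove, Complex.measurableEquivPi, Fin.insertNthEquiv] <;> rfl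
  rw [h5] at h4
  exact h4

theorem HLC_lamT {T : Set (Fin 3 → ℝ)} (hT : MeasurableSet T) (h0 : ∀ p ∈ T, 0 < p 1) :
    (HLC_lam.prod (volume : Measure ℝ)) (HLC_Psi ⁻¹' T) = volume T := by
  have hΨ : HLC_Psi = HLC_e ∘ (Prod.map UpperHalfPlane.coe id) := rfl
  have he : Measurable HLC_e := HLC_emp.measurable
  have hm : Measurable (Prod.map UpperHalfPlane.coe (id : ℝ → ℝ)) := measurable_coe.prodMap measurable_id
  have hmap : Measure.map UpperHalfPlane.coe HLC_lam = (volume : Measure ℂ).restrict (range UpperHalfPlane.coe) := by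
    unfold HLC_lam
    rw [measurableEmbedding_coe.map_comap]
  have hR : MeasurableSet (range UpperHalfPlane.coe) := measurableEmbedding_coe.measurableSet_range
  have hsf : SFinite (Measure.map UpperHalfPlane.coe HLC_lam) := by rw [hmap]; infer_instance
  rw [hΨ, preimage_comp, ← Measure.map_apply hm (he hT), ← Measure.map_prod_map _ _ measurable_coe measurable_id,
    Measure.map_id, hmap]
  have h1 : ((volume : Measure ℂ).restrict (range UpperHalfPlane.coe)).prod (volume : Measure ℝ) =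
      ((volume : Measure ℂ).prod (volume : Measure ℝ)).restrict ((range UpperHalfPlane.coe) ×ˢ univ) := by
    rw [← Measure.prod_restrict, Measure.restrict_univ]
  rw [h1, Measure.restrict_apply (he hT)]
  have h2 : HLC_e ⁻¹' T ∩ (range UpperHalfPlane.coe) ×ˢ univ = HLC_e ⁻¹' T := by
    refine inter_eq_left.2 fun p hp => ⟨?_, mem_univ _⟩
    have h3 : 0 < p.1.im := by
      have := h0 _ hp
      simpa [HLC_e] using this
    exact ⟨⟨p.1, h3⟩, rfl⟩
  rw [h2, HLC_emp.measure_preimage hT.nullMeasurableSet]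

/-- the box -/
def HLC_B (Y : ℝ) (p : Fin 3 → ℝ) : Prop :=
  |p 0| ≤ Y ∧ 1 / Y ≤ p 1 ∧ p 1 ≤ Y ∧ 0 < p 2 ∧ p 2 ≤ 2 * Real.pi

/-- the set of the coordinates -/
def HLC_T (Y : ℝ) (A : Set SL(2, ℝ)) : Set (Fin 3 → ℝ) := {p | HLC_B Y p ∧ HLC_j p ∈ mt '' A}

theorem HLC_mtinj : Function.Injective mt := by
  intro g g' h
  apply Subtype.ext
  funext i k
  exact congrFun (congrFun h i) k

theorem HLC_mtcont : Continuous mt := by
  refine continuous_pi fun i => continuous_pi fun k => ?_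
  unfold mt
  exact (continuous_subtype_val.matrix_elem i k)

theorem HLC_mtemb : MeasurableEmbedding mt := by
  have hcl : Topology.IsClosedEmbedding mt := by
    have h := Matrix.SpecialLinearGroup.isClosedEmbedding_val (n := Fin 2) (R := ℝ)
    exact h
  exact hcl.measurableEmbedding

theorem HLC_jm : Measurable HLC_j := by
  refine measurable_pi_lambda _ fun i => measurable_pi_lambda _ fun k => ?_
  fin_cases i <;> fin_cases k <;> simp only [HLC_j] <;> fun_prop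

theorem HLC_Tm (Y : ℝ) {A : Set SL(2, ℝ)} (hA : MeasurableSet A) : MeasurableSet (HLC_T Y A) := by
  have h1 : MeasurableSet {p : Fin 3 → ℝ | HLC_B Y p} := by
    have hs : {p : Fin 3 → ℝ | HLC_B Y p} = {p : Fin 3 → ℝ | |p 0| ≤ Y} ∩ ({p : Fin 3 → ℝ | 1 / Y ≤ p 1} ∩
      ({p : Fin 3 → ℝ | p 1 ≤ Y} ∩ ({p : Fin 3 → ℝ | 0 < p 2} ∩ {p : Fin 3 → ℝ | p 2 ≤ 2 * Real.pi}))) := rfl
    rw [hs]
    exact (measurableSet_le (measurable_pi_apply 0).abs measurable_const).inter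
      ((measurableSet_le measurable_const (measurable_pi_apply 1)).inter
      ((measurableSet_le (measurable_pi_apply 1) measurable_const).inter
      ((measurableSet_lt measurable_const (measurable_pi_apply 2)).inter
      (measurableSet_le (measurable_pi_apply 2) measurable_const))))
  have h2 : MeasurableSet (HLC_j ⁻¹' (mt '' A)) := HLC_jm (HLC_mtemb.measurableSet_image.2 hA)
  exact h1.inter h2

theorem HLC_kM : Continuous kM := GLC.2.2.2.2.2.2.1

theorem HLC_phic : Continuous (fun p : ℍ × ℝ => toSL2R p.1 * kM p.2) :=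
  (continuous_toSL2R.comp continuous_fst).mul (HLC_kM.comp continuous_snd)

/-- the preimage of `A` -/
def HLC_P (A : Set SL(2, ℝ)) : Set (ℍ × ℝ) := {p | toSL2R p.1 * kM p.2 ∈ A ∧ 0 < p.2 ∧ p.2 ≤ 2 * Real.pi}

theorem HLC_Pm {A : Set SL(2, ℝ)} (hA : MeasurableSet A) : MeasurableSet (HLC_P A) := by
  refine MeasurableSet.inter (HLC_phic.measurable hA) (MeasurableSet.inter ?_ ?_)
  · exact measurableSet_lt measurable_const measurable_snd
  · exact measurableSet_le measurable_snd measurable_const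

theorem HLC_mG {A : Set SL(2, ℝ)} (hA : MeasurableSet A) :
    mG A = (ENNReal.ofReal (2 * Real.pi))⁻¹ * ((volume : Measure ℍ).prod (volume : Measure ℝ)) (HLC_P A) := by
  unfold mG
  rw [Measure.map_apply HLC_phic.measurable hA, Measure.prod_smul_right, Measure.smul_apply, smul_eq_mul]
  congr 1
  have h1 : ((volume : Measure ℍ).prod ((volume : Measure ℝ).restrict (Ioc 0 (2 * Real.pi)))) =
      ((volume : Measure ℍ).prod (volume : Measure ℝ)).restrict (univ ×ˢ Ioc 0 (2 * Real.pi)) := by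
    rw [← Measure.prod_restrict, Measure.restrict_univ]
  rw [h1, Measure.restrict_apply (HLC_phic.measurable hA)]
  congr 1
  ext p
  simp [HLC_P]

theorem HLC_volprod {P : Set (ℍ × ℝ)} (hP : MeasurableSet P) :
    ((volume : Measure ℍ).prod (volume : Measure ℝ)) P =
      ∫⁻ z, HLC_w z * volume (Prod.mk z ⁻¹' P) ∂HLC_lam := by
  rw [Measure.prod_apply hP, HLC_vol, lintegral_withDensity_eq_lintegral_mul _ HLC_wm
    (measurable_measure_prodMk_left hP)]
  rfl

theorem HLC_w_le {Y : ℝ} (hY : 0 < Y) {z : ℍ} (h : 1 / Y ≤ z.im) : HLC_w z ≤ ENNReal.ofReal (Y ^ 2) := by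
  have h1 : HLC_w z = ENNReal.ofReal ((1 / z.im) ^ 2) := by
    unfold HLC_w
    rw [ENNReal.ofReal, ENNReal.coe_inj]
    apply NNReal.eq
    rw [Real.coe_toNNReal _ (by positivity)]
    rfl
  rw [h1]
  apply ENNReal.ofReal_le_ofReal
  have h2 : 0 < z.im := z.im_pos
  have h3 : 1 / z.im ≤ Y := by
    rw [div_le_iff₀ h2]
    rw [div_le_iff₀ hY] at h
    linarith
  have h4 : 0 ≤ 1 / z.im := by positivity
  nlinarith

theorem HLC_w_ge {Y : ℝ} (hY : 0 < Y) {z : ℍ} (h : z.im ≤ Y) : 1 ≤ ENNReal.ofReal (Y ^ 2) * HLC_w z := by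
  have h1 : HLC_w z = ENNReal.ofReal ((1 / z.im) ^ 2) := by
    unfold HLC_w
    rw [ENNReal.ofReal, ENNReal.coe_inj]
    apply NNReal.eq
    rw [Real.coe_toNNReal _ (by positivity)]
    rfl
  rw [h1, ← ENNReal.ofReal_mul (by positivity), ← ENNReal.ofReal_one]
  apply ENNReal.ofReal_le_ofReal
  have h2 : 0 < z.im := z.im_pos
  have h3 : 1 ≤ Y * (1 / z.im) := by
    rw [mul_one_div, le_div_iff₀ h2]
    linarith
  have h4 : Y ^ 2 * (1 / z.im) ^ 2 = (Y * (1 / z.im)) ^ 2 := by ring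
  rw [h4]
  nlinarith

/-- upper bound of the Haar measure -/
theorem HLC_up {Y : ℝ} (hY : 1 ≤ Y) {A : Set SL(2, ℝ)} (hA : MeasurableSet A)
    (hb : ∀ g ∈ A, |(g • I : ℍ).re| ≤ Y ∧ 1 / Y ≤ (g • I : ℍ).im ∧ (g • I : ℍ).im ≤ Y) :
    mG A ≤ ENNReal.ofReal (Y ^ 2) * volume (HLC_T Y A) := by
  have hY0 : 0 < Y := by linarith
  have hPb : ∀ p ∈ HLC_P A, |p.1.re| ≤ Y ∧ 1 / Y ≤ p.1.im ∧ p.1.im ≤ Y := by
    intro p hp
    have h := hb _ hp.1
    rw [mul_smul, GLC.2.2.2.2.2.2.2.2.2.2.2.2.2.2.2.1 p.2, toSL2R_smul_I] at h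
    exact h
  have h1 : HLC_P A ⊆ HLC_Psi ⁻¹' (HLC_T Y A) := by
    intro p hp
    obtain ⟨b1, b2, b3⟩ := hPb p hp
    refine ⟨⟨b1, b2, b3, hp.2.1, hp.2.2⟩, ?_⟩
    rw [show p = (p.1, p.2) from rfl, ← HLC_mt]
    exact mem_image_of_mem _ hp.1
  rw [HLC_mG hA, HLC_volprod (HLC_Pm hA)]
  have h2 : ∫⁻ z, HLC_w z * volume (Prod.mk z ⁻¹' (HLC_P A)) ∂HLC_lam ≤
      ∫⁻ z, ENNReal.ofReal (Y ^ 2) * volume (Prod.mk z ⁻¹' (HLC_P A)) ∂HLC_lam := by
    refine lintegral_mono fun z => ?_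
    by_cases hz : 1 / Y ≤ z.im
    · exact mul_le_mul_left (HLC_w_le hY0 hz) _
    · have : Prod.mk z ⁻¹' (HLC_P A) = ∅ := by
        ext θ
        simp only [mem_preimage, mem_empty_iff_false, iff_false]
        intro hp
        exact hz (hPb _ hp).2.1
      rw [this]
      simp
  rw [lintegral_const_mul _ (measurable_measure_prodMk_left (HLC_Pm hA)), ← Measure.prod_apply (HLC_Pm hA)] at h2
  have h3 : (HLC_lam.prod (volume : Measure ℝ)) (HLC_P A) ≤ volume (HLC_T Y A) := by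
    rw [← HLC_lamT (HLC_Tm Y hA) fun p hp => lt_of_lt_of_le (by positivity) hp.1.2.1]
    exact measure_mono h1
  have h4 : (ENNReal.ofReal (2 * Real.pi))⁻¹ ≤ 1 := by
    rw [ENNReal.inv_le_one, ← ENNReal.ofReal_one]
    exact ENNReal.ofReal_le_ofReal (by linarith [Real.pi_gt_three])
  calc (ENNReal.ofReal (2 * Real.pi))⁻¹ * ∫⁻ z, HLC_w z * volume (Prod.mk z ⁻¹' (HLC_P A)) ∂HLC_lam
      ≤ 1 * (ENNReal.ofReal (Y ^ 2) * volume (HLC_T Y A)) :=
        mul_le_mul' h4 (h2.trans (mul_le_mul_right h3 _))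
    _ = _ := one_mul _

/-- lower bound of the Haar measure -/
theorem HLC_low {Y : ℝ} (hY : 1 ≤ Y) {A : Set SL(2, ℝ)} (hA : MeasurableSet A) :
    volume (HLC_T Y A) ≤ ENNReal.ofReal (2 * Real.pi) * ENNReal.ofReal (Y ^ 2) * mG A := by
  have hY0 : 0 < Y := by linarith
  have hTm := HLC_Tm Y hA
  have hΨm : Measurable HLC_Psi := by
    have : HLC_Psi = HLC_e ∘ (Prod.map UpperHalfPlane.coe id) := rfl
    rw [this]
    exact HLC_emp.measurable.comp (measurable_coe.prodMap measurable_id)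
  have hPm : MeasurableSet (HLC_Psi ⁻¹' (HLC_T Y A)) := hΨm hTm
  have h1 : HLC_Psi ⁻¹' (HLC_T Y A) ⊆ HLC_P A := by
    intro p hp
    obtain ⟨⟨b1, b2, b3, b4, b5⟩, g, hg, hgj⟩ := hp
    rw [show p = (p.1, p.2) from rfl, ← HLC_mt] at hgj
    have := HLC_mtinj hgj
    refine ⟨?_, b4, b5⟩
    rw [← this]
    exact hg
  have h2 : (HLC_lam.prod (volume : Measure ℝ)) (HLC_Psi ⁻¹' (HLC_T Y A)) ≤
      ENNReal.ofReal (Y ^ 2) * ((volume : Measure ℍ).prod (volume : Measure ℝ)) (HLC_Psi ⁻¹' (HLC_T Y A)) := by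
    have hcm : ∫⁻ z, ENNReal.ofReal (Y ^ 2) * (HLC_w z * volume (Prod.mk z ⁻¹' (HLC_Psi ⁻¹' (HLC_T Y A)))) ∂HLC_lam =
        ENNReal.ofReal (Y ^ 2) * ∫⁻ z, HLC_w z * volume (Prod.mk z ⁻¹' (HLC_Psi ⁻¹' (HLC_T Y A))) ∂HLC_lam :=
      lintegral_const_mul _ (HLC_wm.mul (measurable_measure_prodMk_left hPm))
    rw [HLC_volprod hPm, Measure.prod_apply hPm, ← hcm]
    refine lintegral_mono fun z => ?_
    by_cases hz : z.im ≤ Y
    · have h5 := HLC_w_ge hY0 hz
      calc volume (Prod.mk z ⁻¹' (HLC_Psi ⁻¹' (HLC_T Y A)))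
          = 1 * volume (Prod.mk z ⁻¹' (HLC_Psi ⁻¹' (HLC_T Y A))) := (one_mul _).symm
        _ ≤ (ENNReal.ofReal (Y ^ 2) * HLC_w z) * volume (Prod.mk z ⁻¹' (HLC_Psi ⁻¹' (HLC_T Y A))) :=
            mul_le_mul_left h5 _
        _ = _ := by rw [mul_assoc]
    · have : Prod.mk z ⁻¹' (HLC_Psi ⁻¹' (HLC_T Y A)) = ∅ := by
        ext θ
        simp only [mem_preimage, mem_empty_iff_false, iff_false]
        intro hp
        exact hz hp.1.2.2.1
      rw [this]
      simp
  rw [HLC_lamT hTm fun p hp => lt_of_lt_of_le (by positivity) hp.1.2.1] at h2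
  have h6 : ENNReal.ofReal (2 * Real.pi) ≠ 0 := by
    rw [Ne, ENNReal.ofReal_eq_zero, not_le]
    positivity
  have h7 : ((volume : Measure ℍ).prod (volume : Measure ℝ)) (HLC_P A) = ENNReal.ofReal (2 * Real.pi) * mG A := by
    rw [HLC_mG hA, ← mul_assoc, ENNReal.mul_inv_cancel h6 ENNReal.ofReal_ne_top, one_mul]
  calc volume (HLC_T Y A) ≤ ENNReal.ofReal (Y ^ 2) * ((volume : Measure ℍ).prod (volume : Measure ℝ)) (HLC_P A) :=
        h2.trans (mul_le_mul_right (measure_mono h1) _)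
    _ = _ := by rw [h7]; ring

/-- the box of a compact set -/
theorem HLC_box {K : Set SL(2, ℝ)} (hK : IsCompact K) :
    ∃ Y : ℝ, 1 ≤ Y ∧ ∀ g ∈ K, |(g • I : ℍ).re| ≤ Y ∧ 1 / Y ≤ (g • I : ℍ).im ∧ (g • I : ℍ).im ≤ Y := by
  have hc : Continuous fun g : SL(2, ℝ) => g • I := by fun_prop
  have h1 : Continuous fun g : SL(2, ℝ) => |(g • I : ℍ).re| := (continuous_re.comp hc).abs
  have h2 : Continuous fun g : SL(2, ℝ) => (g • I : ℍ).im := continuous_im.comp hc
  have h3 : Continuous fun g : SL(2, ℝ) => 1 / (g • I : ℍ).im := continuous_const.div h2 fun g => (g • I : ℍ).im_ne_zero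
  obtain ⟨a, ha⟩ := (hK.image h1).bddAbove
  obtain ⟨b, hb⟩ := (hK.image h2).bddAbove
  obtain ⟨c, hc'⟩ := (hK.image h3).bddAbove
  refine ⟨max 1 (max a (max b c)), le_max_left _ _, fun g hg => ⟨?_, ?_, ?_⟩⟩
  · exact (ha (mem_image_of_mem _ hg)).trans ((le_max_left _ _).trans (le_max_right _ _))
  · have h4 : 1 / (g • I : ℍ).im ≤ max 1 (max a (max b c)) :=
      (hc' (mem_image_of_mem _ hg)).trans ((le_max_right _ _).trans ((le_max_right _ _).trans (le_max_right _ _)))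
    have h5 : 0 < (g • I : ℍ).im := (g • I : ℍ).im_pos
    have h6 : (0 : ℝ) < max 1 (max a (max b c)) := lt_of_lt_of_le one_pos (le_max_left _ _)
    rw [div_le_iff₀ h5] at h4
    rw [div_le_iff₀ h6]
    linarith
  · exact (hb (mem_image_of_mem _ hg)).trans ((le_max_left _ _).trans ((le_max_right _ _).trans (le_max_right _ _)))

end

end Pool.Agent.VQE
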